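import Pool.Agent.X119.Cong

/-!
# The assertions of Q1 and Q2 fail for `p = 7`
-/

set_option autoImplicit false

namespace Pool.Agent.Results.MP_f96d9d_nt.FailsAtSeven

open Finset Pool.Agent.X119.Cong

/-- the sum of `T_k(b, 49) ^ 3 / m ^ k` over `k < p` -/
def sum (b : ℤ) (m : ℚ) (p : ℕ) : ℚ := ∑ k ∈ range p, (T k b 49 : ℚ) ^ 3 / m ^ k

/-- Q1 for the prime `p` -/
def Statement1 (p : ℕ) : Prop :=
  Cong p 2 (jacobiSym 2 p * sum 18 512 p) (sum 18 4096 p) ∧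
  (p % 4 = 1 → ∀ x y : ℤ, (p : ℤ) = x ^ 2 + y ^ 2 → Odd x → Even y → Cong p 2 (sum 18 4096 p) (4 * x ^ 2 - 2 * p)) ∧
  (p % 4 = 3 → Cong p 2 (sum 18 4096 p) 0)

/-- Q2 for the prime `p` -/
def Statement2 (p : ℕ) : Prop :=
  Cong p 2 (jacobiSym (-1) p * sum 10 (-512) p) (jacobiSym 6 p * sum 10 1728 p) ∧
  (p % 8 = 1 ∨ p % 8 = 3 → ∀ x y : ℤ, (p : ℤ) = x ^ 2 + 2 * y ^ 2 →
    Cong p 2 (jacobiSym 6 p * sum 10 1728 p) (4 * x ^ 2 - 2 * p)) ∧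
  (p % 8 = 5 ∨ p % 8 = 7 → Cong p 2 (jacobiSym 6 p * sum 10 1728 p) 0)

/-- a form of the sum for computations -/
def sum' (b : ℤ) (m : ℚ) (p : ℕ) : ℚ := ∑ k ∈ range p, (T' k b 49 : ℚ) ^ 3 / m ^ k

theorem sum_eq (b : ℤ) (m : ℚ) (p : ℕ) : sum b m p = sum' b m p := by
  unfold sum sum'
  refine sum_congr rfl fun k _ => ?_
  rw [T_eq]

theorem fail1 : ¬ Cong 7 2 (sum 18 4096 7) 0 := by
  rw [sum_eq]
  exact not_cong (by decide +kernel)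

theorem fail2 : ¬ Cong 7 2 (jacobiSym 6 7 * sum 10 1728 7) 0 := by
  rw [sum_eq]
  have h1 : jacobiSym 6 7 = -1 := by norm_num
  rw [h1]
  exact not_cong (by decide +kernel)

/-- The sums `A_2(7)` and `(6/7) B_2(7)` are not congruent to `0` modulo `49`, so that the assertions of Q1 and of Q2 are
false for `p = 7`. -/
theorem result :
    (¬ Cong 7 2 (sum 18 4096 7) 0 ∧ ¬ Cong 7 2 (jacobiSym 6 7 * sum 10 1728 7) 0) ∧
    (¬ ∀ p : ℕ, p.Prime → 3 < p → Statement1 p) ∧ ¬ ∀ p : ℕ, p.Prime → 3 < p → Statement2 p :=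
  ⟨⟨fail1, fail2⟩, fun h => fail1 ((h 7 (by norm_num) (by norm_num)).2.2 (by norm_num)),
    fun h => fail2 ((h 7 (by norm_num) (by norm_num)).2.2 (by norm_num))⟩

end Pool.Agent.Results.MP_f96d9d_nt.FailsAtSeven
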